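import Mathlib

set_option autoImplicit false

/-! # Logarithms -/

namespace Pool.Agent.X240.Gen

/-- For `p` from `11` on, `log₂ x ≤ x p / 2 ^ p` if `x ≥ 2 ^ p`; here for `p = 11`. -/
theorem logb_le_of_2048 {x : ℝ} (hx : 2048 ≤ x) : Real.logb 2 x ≤ x / 186 := by
  have h2 := Real.log_two_gt_d9
  have h2' := Real.log_two_lt_d9
  have h0 : 0 < Real.log 2 := by linarith
  rw [Real.logb, div_le_iff₀ h0]
  have h1 : Real.log x = 11 * Real.log 2 + Real.log (x / 2048) := by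
    have e : x = 2 ^ 11 * (x / 2048) := by ring
    rw [e, Real.log_mul (by norm_num) (by positivity), Real.log_pow]
    push_cast
    congr 2
    ring
  have h3 := Real.log_le_sub_one_of_pos (by positivity : 0 < x / 2048)
  have h4 : x / 186 * (6931 / 10000) ≤ x / 186 * Real.log 2 :=
    mul_le_mul_of_nonneg_left (by linarith) (by positivity)
  rw [h1]
  linarith

theorem le_logb {m : ℕ} (hm : 2048 ≤ m) : 11 ≤ Real.logb 2 (m : ℝ) := by
  have hm' : (2048 : ℝ) ≤ m := by exact_mod_cast hm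
  have h3 := Real.logb_le_logb_of_le (by norm_num : (1 : ℝ) < 2) (by norm_num)
    (by linarith : (2 : ℝ) ^ 11 ≤ m)
  rw [Real.logb_pow, Real.logb_self_eq_one (by norm_num)] at h3
  push_cast at h3
  linarith

theorem clog_le {m : ℕ} (hm : 2 ≤ m) : (Nat.clog 2 m : ℝ) ≤ Real.logb 2 m + 1 := by
  have h1 : 2 ^ (Nat.clog 2 m - 1) < m := Nat.pow_pred_clog_lt_self (by norm_num) (by omega)
  have h2 : ((2 : ℝ) ^ (Nat.clog 2 m - 1)) ≤ m := by exact_mod_cast h1.le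
  have h3 := Real.logb_le_logb_of_le (by norm_num : (1 : ℝ) < 2) (by positivity) h2
  rw [Real.logb_pow, Real.logb_self_eq_one (by norm_num), mul_one] at h3
  have h4 : ((Nat.clog 2 m : ℕ) : ℝ) ≤ ((Nat.clog 2 m - 1 : ℕ) : ℝ) + 1 := by
    have : Nat.clog 2 m ≤ Nat.clog 2 m - 1 + 1 := by omega
    exact_mod_cast this
  linarith

/-- The parameter `Λ` for at most `m` items, and between `m / a` and `m` bits. -/
theorem exists_len {m N T : ℕ} (hm : 2048 ≤ m) (hN : N ≤ m) (hT : T ≤ m) :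
    ∃ Λ : ℕ, 4 * T * (5 * (N * T) + 1) + 2 + N * T ≤ 2 ^ Λ ∧ (Λ : ℝ) ≤ 5 * Real.logb 2 m ∧
      11 ≤ Real.logb 2 (m : ℝ) ∧ (Λ : ℝ) ≤ m / 37 := by
  have hm' : (2048 : ℝ) ≤ m := by exact_mod_cast hm
  have hl := le_logb hm
  have hcl := clog_le (by omega : 2 ≤ m)
  have hlog := logb_le_of_2048 hm'
  have hΛ : ((4 * Nat.clog 2 m : ℕ) : ℝ) ≤ 5 * Real.logb 2 m := by
    push_cast
    linarith
  refine ⟨4 * Nat.clog 2 m, ?_, hΛ, hl, by linarith⟩
  have hpow : m ≤ 2 ^ Nat.clog 2 m := Nat.le_pow_clog (by norm_num) m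
  have h1 : (2 ^ Nat.clog 2 m) ^ 4 = 2 ^ (4 * Nat.clog 2 m) := by rw [← pow_mul]; ring_nf
  rw [← h1]
  refine le_trans ?_ (Nat.pow_le_pow_left hpow 4)
  have h2 : N * T ≤ m * m := Nat.mul_le_mul hN hT
  have h3 : 4 * T * (5 * (N * T) + 1) ≤ 4 * m * (5 * (m * m) + 1) :=
    Nat.mul_le_mul (Nat.mul_le_mul_left _ hT) (by omega)
  have h4 : 4 * m * (5 * (m * m) + 1) = 20 * (m * (m * m)) + 4 * m := by ring
  have h5 : m * m ≤ m * (m * m) := Nat.mul_le_mul_left _ (by nlinarith)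
  have h6 : m ≤ m * (m * m) := by
    calc m = m * 1 := (mul_one m).symm
      _ ≤ m * (m * m) := Nat.mul_le_mul_left _ (by nlinarith)
  have h7 : 2048 * (m * (m * m)) ≤ m * (m * (m * m)) := Nat.mul_le_mul_right _ hm
  have h8 : m ^ 4 = m * (m * (m * m)) := by ring
  rw [h8]
  omega

end Pool.Agent.X240.Gen
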