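import Pool.Agent.Y638.RF.Prog
import Pool.Agent.Y638.RF.NetGen
import Pool.Agent.X240.WF.Gen
import Pool.Agent.Y649.DG.Main
import Pool.Agent.Y649.DG.Gen

set_option autoImplicit false

/-! # The four bounds in a simple form -/

namespace Pool.Agent.X240.Gen

open Finset
open Pool.Agent.TH697.Form (IsProb)
open Pool.Agent.TH697.Row (ApproximatesOn)
open Pool.Agent.Y638.RF (Asks)

section

variable {ι : Type} {D : ι → Type} [DecidableEq ι] {T : Type} [Fintype T] {c w K Λ : ℕ}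
  {P : (∀ i, D i) → Prop} {f : (∀ i, D i) → Bool} {I : Finset ι}

theorem logb_c (c : ℕ) : Real.logb 2 ((2 ^ c : ℕ) : ℝ) = c := by
  push_cast
  rw [Real.logb_pow, Real.logb_self_eq_one (by norm_num), mul_one]

theorem le_M {s K N Λ : ℕ} (hΛ : 4 * K * (5 * N + 1) + 2 + N ≤ 2 ^ Λ) (hs : s < N) :
    4 * K * (5 * s + 1) + 2 + s ≤ 2 ^ Λ := by
  refine le_trans ?_ hΛ
  have : 4 * K * (5 * s + 1) ≤ 4 * K * (5 * N + 1) := Nat.mul_le_mul_left _ (by omega)
  omega

theorem le_M' {s K N Λ : ℕ} (hΛ : 4 * K * (5 * N + 1) + 2 + N ≤ 2 ^ Λ) (hs : s < N) :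
    4 * K * (2 * s + 1) + 2 + s ≤ 2 ^ Λ := by
  refine le_trans ?_ hΛ
  have : 4 * K * (2 * s + 1) ≤ 4 * K * (5 * N + 1) := Nat.mul_le_mul_left _ (by omega)
  omega

theorem arith_rf {N T c w l s : ℝ} (hN : 0 ≤ N) (hT : l ≤ T / 24)
    (h : N * ((49 / 600 - 0) * T - l) ≤ w * (3 + 12 * l + 2 * (w - 1) * c) * s) :
    N * T ≤ 25 * w * (3 + 12 * l + 2 * (w - 1) * c) * s := by
  have h1 : N * (T / 25) ≤ N * ((49 / 600 - 0) * T - l) :=
    mul_le_mul_of_nonneg_left (by linarith) hN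
  have e1 : N * (T / 25) = N * T / 25 := by ring
  have e2 : 25 * w * (3 + 12 * l + 2 * (w - 1) * c) * s =
    25 * (w * (3 + 12 * l + 2 * (w - 1) * c) * s) := by ring
  rw [e1] at h1
  rw [e2]
  linarith

/-- branching programs which test real formulas -/
theorem rf_program (hw : 1 ≤ w) {Ω : Type} [Fintype Ω] (μ : Ω → ℝ) (hμ : IsProb μ) (s : ℕ)
    (B : Ω → Pool.Agent.Y638.RF.Program ι D w (2 ^ c) s)
    (hB : ApproximatesOn μ (fun ω => (B ω).eval) P f) (h : ∀ i ∈ I, Asks T K 0 P f i)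
    (hΛ : 4 * K * (5 * (I.card * Fintype.card T) + 1) + 2 + I.card * Fintype.card T ≤ 2 ^ Λ)
    (hT : (Λ : ℝ) ≤ Fintype.card T / 24) :
    (I.card : ℝ) * Fintype.card T ≤ 25 * w * (3 + 12 * Λ + 2 * (w - 1) * c) * s := by
  have hw' : (1 : ℝ) ≤ w := by exact_mod_cast hw
  have hc' : (0 : ℝ) ≤ c := Nat.cast_nonneg c
  have hΛ' : (0 : ℝ) ≤ Λ := Nat.cast_nonneg Λ
  have hwc : 0 ≤ 2 * ((w : ℝ) - 1) * c := mul_nonneg (by linarith) hc'
  by_cases hs : I.card * Fintype.card T ≤ s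
  · have h1 : (I.card : ℝ) * Fintype.card T ≤ s := by exact_mod_cast hs
    have h2 : (1 : ℝ) ≤ 25 * w * (3 + 12 * Λ + 2 * (w - 1) * c) :=
      one_le_mul_of_one_le_of_one_le (by linarith) (by linarith)
    exact h1.trans (le_mul_of_one_le_left (Nat.cast_nonneg _) h2)
  have h := Pool.Agent.Y638.RF.program_lower μ hμ s B P f hB Nat.one_le_two_pow hw K (2 ^ Λ)
    (le_M' hΛ (by omega)) 0 I h
  rw [logb_c, logb_c] at h
  exact arith_rf (Nat.cast_nonneg _) hT h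

/-- networks which are guarded by real formulas -/
theorem rf_net (hw : 1 ≤ w) {Ω : Type} [Fintype Ω] (μ : Ω → ℝ) (hμ : IsProb μ) (s : ℕ)
    (F : Ω → Pool.Agent.Y638.RF.Net ι D w (2 ^ c)) (hsz : ∀ ω, (F ω).size ≤ s)
    (hF : ApproximatesOn μ (fun ω => (F ω).eval) P f ∨
      ApproximatesOn μ (fun ω x => !(F ω).eval x) P f) (h : ∀ i ∈ I, Asks T K 0 P f i)
    (hΛ : 4 * K * (5 * (I.card * Fintype.card T) + 1) + 2 + I.card * Fintype.card T ≤ 2 ^ Λ)
    (hT : 100 ≤ Fintype.card T) :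
    (I.card : ℝ) * Fintype.card T ≤
      4000 * w * (√(Fintype.card T) + (3 + 10 * Λ + 2 * (w - 1) * c)) * s := by
  have hw' : (1 : ℝ) ≤ w := by exact_mod_cast hw
  have hc' : (0 : ℝ) ≤ c := Nat.cast_nonneg c
  have hΛ' : (0 : ℝ) ≤ Λ := Nat.cast_nonneg Λ
  have hwc : 0 ≤ 2 * ((w : ℝ) - 1) * c := mul_nonneg (by linarith) hc'
  have hsq : (0 : ℝ) ≤ √(Fintype.card T : ℝ) := Real.sqrt_nonneg _
  by_cases hs : I.card * Fintype.card T ≤ s
  · have h1 : (I.card : ℝ) * Fintype.card T ≤ s := by exact_mod_cast hs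
    have h2 : (1 : ℝ) ≤ 4000 * w * (√(Fintype.card T) + (3 + 10 * Λ + 2 * (w - 1) * c)) :=
      one_le_mul_of_one_le_of_one_le (by linarith) (by linarith)
    exact h1.trans (le_mul_of_one_le_left (Nat.cast_nonneg _) h2)
  have h := Pool.Agent.Y638.RF.net_bound_le μ hμ F P f hF s hsz Nat.one_le_two_pow hw K (2 ^ Λ)
    (le_M' hΛ (by omega)) 0 (by norm_num) I h (Fintype.card T : ℝ) (by exact_mod_cast hT) le_rfl
  rw [logb_c, logb_c] at h
  exact h

/-- formulas with determinant gates -/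
theorem dg_formula (hw : 1 ≤ w) {Ω : Type} [Fintype Ω] (μ : Ω → ℝ) (hμ : IsProb μ) (s : ℕ)
    (F : Ω → Pool.Agent.Y649.DG.Fml ι D w (2 ^ c)) (hsz : ∀ ω, (F ω).size ≤ s)
    (hF : ApproximatesOn μ (fun ω => (F ω).accepts) P f) (h : ∀ i ∈ I, Asks T K 0 P f i)
    (hΛ : 4 * K * (5 * (I.card * Fintype.card T) + 1) + 2 + I.card * Fintype.card T ≤ 2 ^ Λ)
    (hT : 100 ≤ Fintype.card T) :
    (I.card : ℝ) ^ 2 * Fintype.card T ≤ 360000 * w ^ 2 * (1 + 5 * Λ + (w - 1) * c) * s ^ 2 := by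
  have hw' : (1 : ℝ) ≤ w := by exact_mod_cast hw
  have hc' : (0 : ℝ) ≤ c := Nat.cast_nonneg c
  have hΛ' : (0 : ℝ) ≤ Λ := Nat.cast_nonneg Λ
  have hwc : 0 ≤ ((w : ℝ) - 1) * c := mul_nonneg (by linarith) hc'
  have hT' : (100 : ℝ) ≤ Fintype.card T := by exact_mod_cast hT
  by_cases hs : I.card * Fintype.card T ≤ s
  · have h1 : (I.card : ℝ) * Fintype.card T ≤ s := by exact_mod_cast hs
    have h2 : ((I.card : ℝ) * Fintype.card T) ^ 2 ≤ (s : ℝ) ^ 2 :=
      pow_le_pow_left₀ (by positivity) h1 2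
    have h3 : (1 : ℝ) ≤ 360000 * w ^ 2 * (1 + 5 * Λ + (w - 1) * c) :=
      one_le_mul_of_one_le_of_one_le (by nlinarith [one_le_pow₀ (n := 2) hw']) (by linarith)
    have h4 : (I.card : ℝ) ^ 2 * Fintype.card T ≤ ((I.card : ℝ) * Fintype.card T) ^ 2 := by
      have e : ((I.card : ℝ) * Fintype.card T) ^ 2 =
        (I.card : ℝ) ^ 2 * Fintype.card T * Fintype.card T := by ring
      rw [e]
      exact le_mul_of_one_le_right (by positivity) (by linarith)
    exact (h4.trans h2).trans (le_mul_of_one_le_left (by positivity) h3)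
  exact Pool.Agent.Y649.DG.bound_sq Pool.Agent.Y649.DG.bound μ hμ F P f hF s hsz
    Nat.one_le_two_pow hw K (2 ^ Λ) (le_M hΛ (by omega)) 0 (by norm_num) I h
    (Fintype.card T : ℝ) hT' le_rfl _ (by rw [logb_c, logb_c])

/-- branching programs which test integral formulas -/
theorem wf_program {v : ℕ} (hw : 1 ≤ w) {Ω : Type} [Fintype Ω] (μ : Ω → ℝ) (hμ : IsProb μ) (s : ℕ)
    (B : Ω → Pool.Agent.Y638.WF.Program ι D w (2 ^ c) (2 ^ v) P s)
    (hB : ApproximatesOn μ (fun ω => (B ω).eval) P f)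
    (h : ∀ i ∈ I, Pool.Agent.Y638.WF.Asks T 0 P f i)
    (hΛ : I.card * Fintype.card T + 1 ≤ 2 ^ Λ) (hT : (Λ : ℝ) ≤ Fintype.card T / 24) :
    (I.card : ℝ) * Fintype.card T ≤ 25 * w * (25 + 12 * v + 4 * Λ + 2 * (w - 1) * c) * s := by
  have hw' : (1 : ℝ) ≤ w := by exact_mod_cast hw
  have hc' : (0 : ℝ) ≤ c := Nat.cast_nonneg c
  have hv' : (0 : ℝ) ≤ v := Nat.cast_nonneg v
  have hΛ' : (0 : ℝ) ≤ Λ := Nat.cast_nonneg Λ
  have hwc : 0 ≤ 2 * ((w : ℝ) - 1) * c := mul_nonneg (by linarith) hc'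
  by_cases hs : I.card * Fintype.card T ≤ s
  · have h1 : (I.card : ℝ) * Fintype.card T ≤ s := by exact_mod_cast hs
    have h2 : (1 : ℝ) ≤ 25 * w * (25 + 12 * v + 4 * Λ + 2 * (w - 1) * c) :=
      one_le_mul_of_one_le_of_one_le (by linarith) (by linarith)
    exact h1.trans (le_mul_of_one_le_left (Nat.cast_nonneg _) h2)
  refine Pool.Agent.X240.WF.wf_gen hw μ hμ s P B f hB I h Λ ?_ hT
  have h1 : s + 2 ≤ 2 ^ Λ := by omega
  have h2 : ((s : ℝ) + 2) ≤ (2 : ℝ) ^ Λ := by exact_mod_cast h1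
  have h3 := Real.logb_le_logb_of_le (by norm_num : (1 : ℝ) < 2) (by positivity) h2
  rw [Real.logb_pow, Real.logb_self_eq_one (by norm_num), mul_one] at h3
  exact h3

end

/-! ## symmetric problems -/

section

variable {M : ℕ} {E : Type} {T : Type} [Fintype T] {P : (Fin M → E) → Prop}
  {f : (Fin M → E) → Bool}

/-- If the problem does not depend on the order of the items, then it is enough that item `0` can
ask. -/
theorem asks_sym (i₀ : Fin M) (hP : ∀ (x : Fin M → E) (e : Equiv.Perm (Fin M)), P x → P (x ∘ e))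
    (hf : ∀ (x : Fin M → E) (e : Equiv.Perm (Fin M)), f (x ∘ e) = f x)
    (R : (T → Bool) → Fin M → E) (Q : T → E)
    (h1 : ∀ z t, P (Function.update (R z) i₀ (Q t)))
    (h2 : ∀ z t, f (Function.update (R z) i₀ (Q t)) = z t) {K : ℕ} (hK : Fintype.card T ≤ K)
    (i : Fin M) : Asks (D := fun _ : Fin M => E) T K 0 P f i ∧
      Pool.Agent.Y638.WF.Asks (D := fun _ : Fin M => E) T 0 P f i := by
  classical
  obtain ⟨R', hR'⟩ : ∃ R' : (T → Bool) → Fin M → E, R' = fun z => R z ∘ Equiv.swap i i₀ :=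
    ⟨_, rfl⟩
  have hup : ∀ z q, Function.update (R' z) i q =
      Function.update (R z) i₀ q ∘ Equiv.swap i i₀ := by
    intro z q
    rw [hR']
    funext a
    by_cases ha : a = i
    · subst ha
      simp
    · have h3 : Equiv.swap i i₀ a ≠ i₀ := by
        intro h
        have h2 : Equiv.swap i i₀ i = i₀ := Equiv.swap_apply_left _ _
        exact ha ((Equiv.swap i i₀).injective (h.trans h2.symm))
      rw [Function.update_of_ne ha]
      simp only [Function.comp]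
      rw [Function.update_of_ne h3]
  have h3 : ∀ t z, P (Function.update (R' z) i (Q t)) := by
    intro t z
    rw [hup]
    exact hP _ _ (h1 z t)
  have h4 : ∀ t z, f (Function.update (R' z) i (Q t)) = z t := by
    intro t z
    rw [hup, hf]
    exact h2 z t
  have h5 : ∀ z : T → Bool, (univ.filter (fun t =>
      f (Function.update (R' z) i (Q t)) ≠ z t)).card = 0 := by
    intro z
    rw [card_eq_zero, filter_eq_empty_iff]
    intro t _
    rw [h4]
    simp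
  constructor
  · refine ⟨univ.image Q, fun _ => 0, fun t _ => Q t, R', ?_, ?_, fun _ _ _ _ => rfl, h3, ?_⟩
    · exact card_image_le.trans (by rw [card_univ]; exact hK)
    · exact fun t z => mem_image_of_mem _ (mem_univ t)
    · simp [h5]
  · refine ⟨Set.range Q, fun _ => 0, fun t _ => Q t, R', fun t _ => ⟨t, rfl⟩,
      fun _ _ _ _ => rfl, ?_, ?_⟩
    · rintro _ ⟨t, rfl⟩ z
      exact h3 t z
    · simp [h5]

end

end Pool.Agent.X240.Gen
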