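import Pool.Agent.X240.Gen.Bounds
import Pool.Agent.X240.Gen.Log

set_option autoImplicit false

/-! # The four bounds with logarithms -/

namespace Pool.Agent.X240.Gen

open Finset
open Pool.Agent.TH697.Form (IsProb)
open Pool.Agent.TH697.Row (ApproximatesOn)
open Pool.Agent.Y638.RF (Asks)

/-- the parameter for at most `n ^ 2` items, and about `n` bits -/
theorem exists_len2 {n N τ : ℕ} (hn : 2048 ≤ n) (hN : N ≤ n ^ 2) (hτ : τ ≤ n)
    (hτ' : 4 * n ≤ 5 * τ) :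
    ∃ Λ : ℕ, 4 * τ * (5 * (N * τ) + 1) + 2 + N * τ ≤ 2 ^ Λ ∧ (Λ : ℝ) ≤ 6 * Real.logb 2 n ∧
      11 ≤ Real.logb 2 (n : ℝ) ∧ (Λ : ℝ) ≤ τ / 24 := by
  have hn' : (2048 : ℝ) ≤ n := by exact_mod_cast hn
  have hτ'' : 4 * (n : ℝ) ≤ 5 * τ := by exact_mod_cast hτ'
  have hl := le_logb hn
  have hcl := clog_le (by omega : 2 ≤ n)
  have hlog := logb_le_of_2048 hn'
  have hΛ : ((5 * Nat.clog 2 n : ℕ) : ℝ) ≤ 6 * Real.logb 2 n := by
    push_cast
    linarith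
  refine ⟨5 * Nat.clog 2 n, ?_, hΛ, hl, by linarith⟩
  have hpow : n ≤ 2 ^ Nat.clog 2 n := Nat.le_pow_clog (by norm_num) n
  have h1 : (2 ^ Nat.clog 2 n) ^ 5 = 2 ^ (5 * Nat.clog 2 n) := by rw [← pow_mul]; ring_nf
  rw [← h1]
  refine le_trans ?_ (Nat.pow_le_pow_left hpow 5)
  have h2 : N * τ ≤ n ^ 2 * n := Nat.mul_le_mul hN hτ
  have h3 : 4 * τ * (5 * (N * τ) + 1) ≤ 4 * n * (5 * (n ^ 2 * n) + 1) :=
    Nat.mul_le_mul (Nat.mul_le_mul_left _ hτ) (by omega)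
  have h4 : 4 * n * (5 * (n ^ 2 * n) + 1) = 20 * n ^ 4 + 4 * n := by ring
  have h5 : n ^ 2 * n ≤ n ^ 4 := by
    have : n ^ 2 * n = n ^ 3 := by ring
    rw [this]
    exact Nat.pow_le_pow_right (by omega) (by norm_num)
  have h6 : n ≤ n ^ 4 := by
    calc n = n ^ 1 := (pow_one n).symm
      _ ≤ n ^ 4 := Nat.pow_le_pow_right (by omega) (by norm_num)
  have h7 : 2048 * n ^ 4 ≤ n * n ^ 4 := Nat.mul_le_mul_right _ hn
  have h8 : n ^ 5 = n * n ^ 4 := by ring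
  rw [h8]
  omega

section

variable {ι : Type} {D : ι → Type} [DecidableEq ι] {T : Type} [Fintype T] {c w n : ℕ}
  {P : (∀ i, D i) → Prop} {f : (∀ i, D i) → Bool} {I : Finset ι}

/-- branching programs which test real formulas -/
theorem rf_program_log (hw : 1 ≤ w) {Ω : Type} [Fintype Ω] (μ : Ω → ℝ) (hμ : IsProb μ) (s : ℕ)
    (B : Ω → Pool.Agent.Y638.RF.Program ι D w (2 ^ c) s)
    (hB : ApproximatesOn μ (fun ω => (B ω).eval) P f)
    (h : ∀ i ∈ I, Asks T (Fintype.card T) 0 P f i)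
    (hn : 2048 ≤ n) (hN : I.card ≤ n ^ 2) (hτ : Fintype.card T ≤ n)
    (hτ' : 4 * n ≤ 5 * Fintype.card T) :
    (I.card : ℝ) * Fintype.card T ≤ 1900 * w * (c * w + Real.logb 2 n) * s := by
  obtain ⟨Λ, h1, h2, h3, h4⟩ := exists_len2 hn hN hτ hτ'
  have hw' : (1 : ℝ) ≤ w := by exact_mod_cast hw
  have hc' : (0 : ℝ) ≤ c := Nat.cast_nonneg c
  have hs0 : (0 : ℝ) ≤ s := Nat.cast_nonneg s
  have h := rf_program hw μ hμ s B hB h h1 h4
  have h11 : (w : ℝ) * (3 + 12 * Λ + 2 * (w - 1) * c) ≤ w * (76 * (c * w + Real.logb 2 n)) := by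
    apply mul_le_mul_of_nonneg_left _ (by linarith)
    have : 2 * ((w : ℝ) - 1) * c = 2 * (c * w) - 2 * c := by ring
    rw [this]
    have : (0 : ℝ) ≤ c * w := by positivity
    linarith
  have h12 := mul_le_mul_of_nonneg_right h11 hs0
  have e1 : 25 * (w : ℝ) * (3 + 12 * Λ + 2 * (w - 1) * c) * s =
    25 * (w * (3 + 12 * Λ + 2 * (w - 1) * c) * s) := by ring
  have e2 : 1900 * (w : ℝ) * (c * w + Real.logb 2 n) * s =
    25 * (w * (76 * (c * w + Real.logb 2 n)) * s) := by ring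
  rw [e1] at h
  rw [e2]
  linarith

/-- networks -/
theorem rf_net_log (hw : 1 ≤ w) {Ω : Type} [Fintype Ω] (μ : Ω → ℝ) (hμ : IsProb μ) (s : ℕ)
    (F : Ω → Pool.Agent.Y638.RF.Net ι D w (2 ^ c)) (hsz : ∀ ω, (F ω).size ≤ s)
    (hF : ApproximatesOn μ (fun ω => (F ω).eval) P f ∨
      ApproximatesOn μ (fun ω x => !(F ω).eval x) P f)
    (h : ∀ i ∈ I, Asks T (Fintype.card T) 0 P f i)
    (hn : 2048 ≤ n) (hN : I.card ≤ n ^ 2) (hτ : Fintype.card T ≤ n)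
    (hτ' : 4 * n ≤ 5 * Fintype.card T) :
    (I.card : ℝ) * Fintype.card T ≤ 4000 * w * (√n + 61 * Real.logb 2 n + 2 * c * w) * s := by
  obtain ⟨Λ, h1, h2, h3, h4⟩ := exists_len2 hn hN hτ hτ'
  have hw' : (1 : ℝ) ≤ w := by exact_mod_cast hw
  have hc' : (0 : ℝ) ≤ c := Nat.cast_nonneg c
  have hs0 : (0 : ℝ) ≤ s := Nat.cast_nonneg s
  have h := rf_net hw μ hμ s F hsz hF h h1 (by omega)
  have hsq : √(Fintype.card T : ℝ) ≤ √(n : ℝ) := Real.sqrt_le_sqrt (by exact_mod_cast hτ)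
  have h11 : (w : ℝ) * (√(Fintype.card T : ℝ) + (3 + 10 * Λ + 2 * (w - 1) * c)) ≤
      w * (√n + 61 * Real.logb 2 n + 2 * c * w) := by
    apply mul_le_mul_of_nonneg_left _ (by linarith)
    have : 2 * ((w : ℝ) - 1) * c = 2 * c * w - 2 * c := by ring
    rw [this]
    linarith
  have h12 := mul_le_mul_of_nonneg_right h11 hs0
  have e1 : 4000 * (w : ℝ) * (√(Fintype.card T : ℝ) + (3 + 10 * Λ + 2 * (w - 1) * c)) * s =
    4000 * (w * (√(Fintype.card T : ℝ) + (3 + 10 * Λ + 2 * (w - 1) * c)) * s) := by ring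
  have e2 : 4000 * (w : ℝ) * (√n + 61 * Real.logb 2 n + 2 * c * w) * s =
    4000 * (w * (√n + 61 * Real.logb 2 n + 2 * c * w) * s) := by ring
  rw [e1] at h
  rw [e2]
  linarith

/-- formulas with determinant gates -/
theorem dg_formula_log (hw : 1 ≤ w) {Ω : Type} [Fintype Ω] (μ : Ω → ℝ) (hμ : IsProb μ) (s : ℕ)
    (F : Ω → Pool.Agent.Y649.DG.Fml ι D w (2 ^ c)) (hsz : ∀ ω, (F ω).size ≤ s)
    (hF : ApproximatesOn μ (fun ω => (F ω).accepts) P f)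
    (h : ∀ i ∈ I, Asks T (Fintype.card T) 0 P f i)
    (hn : 2048 ≤ n) (hN : I.card ≤ n ^ 2) (hτ : Fintype.card T ≤ n)
    (hτ' : 4 * n ≤ 5 * Fintype.card T) :
    (I.card : ℝ) ^ 2 * Fintype.card T ≤ 12000000 * w ^ 2 * (c * w + Real.logb 2 n) * s ^ 2 := by
  obtain ⟨Λ, h1, h2, h3, h4⟩ := exists_len2 hn hN hτ hτ'
  have hw' : (1 : ℝ) ≤ w := by exact_mod_cast hw
  have hc' : (0 : ℝ) ≤ c := Nat.cast_nonneg c
  have h := dg_formula hw μ hμ s F hsz hF h h1 (by omega)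
  have h11 : (w : ℝ) ^ 2 * (1 + 5 * Λ + (w - 1) * c) ≤ w ^ 2 * (31 * (c * w + Real.logb 2 n)) := by
    apply mul_le_mul_of_nonneg_left _ (by positivity)
    have : ((w : ℝ) - 1) * c = c * w - c := by ring
    rw [this]
    have : (0 : ℝ) ≤ c * w := by positivity
    linarith
  have h12 := mul_le_mul_of_nonneg_right h11 (by positivity : (0 : ℝ) ≤ (s : ℝ) ^ 2)
  have e1 : 360000 * (w : ℝ) ^ 2 * (1 + 5 * Λ + (w - 1) * c) * s ^ 2 =
    360000 * (w ^ 2 * (1 + 5 * Λ + (w - 1) * c) * s ^ 2) := by ring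
  have e2 : 12000000 * (w : ℝ) ^ 2 * (c * w + Real.logb 2 n) * s ^ 2 =
    12000000 * (w ^ 2 * (c * w + Real.logb 2 n) * s ^ 2) := by ring
  have e3 : (w : ℝ) ^ 2 * (31 * (c * w + Real.logb 2 n)) * s ^ 2 =
    31 * (w ^ 2 * (c * w + Real.logb 2 n) * s ^ 2) := by ring
  have h13 : (0 : ℝ) ≤ w ^ 2 * (c * w + Real.logb 2 n) * s ^ 2 := by positivity
  rw [e1] at h
  rw [e3] at h12
  rw [e2]
  linarith

/-- branching programs which test integral formulas -/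
theorem wf_program_log {v : ℕ} (hw : 1 ≤ w) {Ω : Type} [Fintype Ω] (μ : Ω → ℝ) (hμ : IsProb μ)
    (s : ℕ) (B : Ω → Pool.Agent.Y638.WF.Program ι D w (2 ^ c) (2 ^ v) P s)
    (hB : ApproximatesOn μ (fun ω => (B ω).eval) P f)
    (h : ∀ i ∈ I, Pool.Agent.Y638.WF.Asks T 0 P f i)
    (hn : 2048 ≤ n) (hN : I.card ≤ n ^ 2) (hτ : Fintype.card T ≤ n)
    (hτ' : 4 * n ≤ 5 * Fintype.card T) :
    (I.card : ℝ) * Fintype.card T ≤ 700 * w * (v + c * w + Real.logb 2 n) * s := by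
  obtain ⟨Λ, h1, h2, h3, h4⟩ := exists_len2 hn hN hτ hτ'
  have hw' : (1 : ℝ) ≤ w := by exact_mod_cast hw
  have hc' : (0 : ℝ) ≤ c := Nat.cast_nonneg c
  have hv' : (0 : ℝ) ≤ v := Nat.cast_nonneg v
  have hs0 : (0 : ℝ) ≤ s := Nat.cast_nonneg s
  have h := wf_program hw μ hμ s B hB h (by omega : I.card * Fintype.card T + 1 ≤ 2 ^ Λ) h4
  have h11 : (w : ℝ) * (25 + 12 * v + 4 * Λ + 2 * (w - 1) * c) ≤
      w * (28 * (v + c * w + Real.logb 2 n)) := by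
    apply mul_le_mul_of_nonneg_left _ (by linarith)
    have : 2 * ((w : ℝ) - 1) * c = 2 * (c * w) - 2 * c := by ring
    rw [this]
    have : (0 : ℝ) ≤ c * w := by positivity
    linarith
  have h12 := mul_le_mul_of_nonneg_right h11 hs0
  have e1 : 25 * (w : ℝ) * (25 + 12 * v + 4 * Λ + 2 * (w - 1) * c) * s =
    25 * (w * (25 + 12 * v + 4 * Λ + 2 * (w - 1) * c) * s) := by ring
  have e2 : 700 * (w : ℝ) * (v + c * w + Real.logb 2 n) * s =
    25 * (w * (28 * (v + c * w + Real.logb 2 n)) * s) := by ring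
  rw [e1] at h
  rw [e2]
  linarith

end

/-! ## symmetric problems, with a list indexed in another way -/

section

variable {M : ℕ} {J E T : Type} [DecidableEq J] [Fintype T] {P : (Fin M → E) → Prop}
  {f : (Fin M → E) → Bool}

/-- The items may be named by another type. -/
theorem asks_eqv (e : Fin M ≃ J) (j₀ : J)
    (hP : ∀ (x : Fin M → E) (e : Equiv.Perm (Fin M)), P x → P (x ∘ e))
    (hf : ∀ (x : Fin M → E) (e : Equiv.Perm (Fin M)), f (x ∘ e) = f x)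
    (L : (T → Bool) → J → E) (Q : T → E)
    (h1 : ∀ z t, P (Function.update (L z) j₀ (Q t) ∘ e))
    (h2 : ∀ z t, f (Function.update (L z) j₀ (Q t) ∘ e) = z t) (i : Fin M) :
    Asks (D := fun _ : Fin M => E) T (Fintype.card T) 0 P f i ∧
      Pool.Agent.Y638.WF.Asks (D := fun _ : Fin M => E) T 0 P f i := by
  have h3 : ∀ z t, Function.update (L z ∘ e) (e.symm j₀) (Q t) =
      Function.update (L z) j₀ (Q t) ∘ e := fun z t =>
    (Function.update_comp_equiv (L z) e j₀ (Q t)).symm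
  exact asks_sym (e.symm j₀) hP hf (fun z => L z ∘ e) Q (fun z t => by rw [h3]; exact h1 z t)
    (fun z t => by rw [h3]; exact h2 z t) le_rfl i

end

end Pool.Agent.X240.Gen
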