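import Mathlib

set_option autoImplicit false

/-! # Lists of edges -/

namespace Pool.Agent.X240.Gen

/-- The graph with the edges `x i`. -/
def graph {ι V : Type} (x : ι → V × V) : SimpleGraph V :=
  SimpleGraph.fromEdgeSet (Set.range fun i => s((x i).1, (x i).2))

/-- The list has no loop, and no edge is listed twice (in whatever direction). -/
def Simple {ι V : Type} (x : ι → V × V) : Prop :=
  (∀ i, (x i).1 ≠ (x i).2) ∧ Function.Injective fun i => s((x i).1, (x i).2)

variable {ι κ V W : Type}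

theorem graph_adj {x : ι → V × V} {u v : V} :
    (graph x).Adj u v ↔ (∃ i, x i = (u, v) ∨ x i = (v, u)) ∧ u ≠ v := by
  unfold graph
  rw [SimpleGraph.fromEdgeSet_adj]
  constructor
  · rintro ⟨⟨i, hi⟩, h⟩
    refine ⟨⟨i, ?_⟩, h⟩
    rw [Sym2.eq_iff] at hi
    rcases hi with hi | hi
    · exact Or.inl (Prod.ext hi.1 hi.2)
    · exact Or.inr (Prod.ext hi.1 hi.2)
  · rintro ⟨⟨i, hi⟩, h⟩
    refine ⟨⟨i, ?_⟩, h⟩
    rcases hi with hi | hi
    · simp [hi]
    · simp [hi, Sym2.eq_swap]

theorem graph_comp (x : ι → V × V) (e : κ ≃ ι) : graph (x ∘ e) = graph x := by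
  ext u v
  rw [graph_adj, graph_adj]
  constructor
  · rintro ⟨⟨i, hi⟩, h⟩
    exact ⟨⟨e i, hi⟩, h⟩
  · rintro ⟨⟨i, hi⟩, h⟩
    exact ⟨⟨e.symm i, by simpa using hi⟩, h⟩

theorem simple_comp {x : ι → V × V} (e : κ ≃ ι) (h : Simple x) : Simple (x ∘ e) :=
  ⟨fun i => h.1 (e i), h.2.comp e.injective⟩

theorem ncard_edges {x : ι → V × V} (h : Simple x) :
    (graph x).edgeSet.ncard = Nat.card ι := by
  have h1 : (graph x).edgeSet = Set.range fun i => s((x i).1, (x i).2) := by
    unfold graph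
    rw [SimpleGraph.edgeSet_fromEdgeSet, sdiff_eq_left, Set.disjoint_left]
    rintro _ ⟨i, rfl⟩ h2
    exact h.1 i h2
  rw [h1, ← Set.image_univ, Set.ncard_image_of_injective _ h.2, Set.ncard_univ]

/-- new names for the vertices -/
def relabel (φ : V ≃ W) (x : ι → V × V) : ι → W × W := fun i => (φ (x i).1, φ (x i).2)

theorem simple_relabel (φ : V ≃ W) {x : ι → V × V} (h : Simple x) : Simple (relabel φ x) := by
  refine ⟨fun i h1 => h.1 i (φ.injective h1), fun i j hij => h.2 ?_⟩
  simp only [relabel, Sym2.eq_iff] at hij ⊢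
  simpa using hij

/-- the isomorphism -/
def iso (φ : V ≃ W) (x : ι → V × V) : graph x ≃g graph (relabel φ x) where
  toEquiv := φ
  map_rel_iff' := by
    intro u v
    rw [graph_adj, graph_adj]
    simp only [relabel, Prod.ext_iff, ne_eq, EmbeddingLike.apply_eq_iff_eq]

end Pool.Agent.X240.Gen
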